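import Pool.Agent.W716.FV.StmA

/-!
# Project FV, task FV-AR: area inequality for countably many maps
-/

set_option autoImplicit false

open MeasureTheory Set

namespace Pool.Agent.W521.FV.AR

open Pool.Agent.W716.FV

theorem main : AreaIneq := by
  intro V _ _ _ _ _ μ _ ι _ s f Ω w hs hf hnull hdiff hΩ hw hsub
  classical
  let J : ι → V → ENNReal := fun i x => ENNReal.ofReal |(fderiv ℝ (f i) x).det|
  have hJ : ∀ i, Measurable (J i) := fun i =>
    ENNReal.measurable_ofReal.comp
      ((continuous_abs.comp ContinuousLinearMap.continuous_det).measurable.comp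
        (measurable_fderiv ℝ (f i)))
  let g : ι → V → V := fun i => (hf i).mk (f i)
  have hg : ∀ i, Measurable (g i) := fun i => (hf i).measurable_mk
  have hfg : ∀ i, ∀ᵐ x ∂(μ.restrict (s i)), f i x = g i x := fun i => (hf i).ae_eq_mk
  let m : ι → Measure V := fun i => Measure.map (g i) ((μ.restrict (s i)).withDensity (J i))
  have key : μ.restrict Ω ≤ Measure.sum m := by
    rw [Measure.le_iff]
    intro B hB
    rw [Measure.restrict_apply hB, Measure.sum_apply _ hB]
    have h1 : B ∩ Ω ⊆ ⋃ i, f i '' (s i ∩ f i ⁻¹' B) := by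
      rintro y ⟨hyB, hyΩ⟩
      obtain ⟨i, x, hx, rfl⟩ := mem_iUnion.1 (hsub hyΩ)
      exact mem_iUnion.2 ⟨i, x, ⟨hx, hyB⟩, rfl⟩
    refine (measure_mono h1).trans ((measure_iUnion_le _).trans
      (ENNReal.tsum_le_tsum fun i => ?_))
    have hm : m i B = ∫⁻ x in s i ∩ g i ⁻¹' B, J i x ∂μ := by
      simp only [m]
      rw [Measure.map_apply (hg i) hB, withDensity_apply _ (hg i hB),
        Measure.restrict_restrict (hg i hB), inter_comm]
    rw [hm]
    let bad : Set V := {x | ¬ (x ∈ s i → DifferentiableAt ℝ (f i) x)} ∪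
      {x | ¬ (x ∈ s i → f i x = g i x)}
    have hbad : μ bad = 0 :=
      measure_union_null (hdiff i) ((ae_restrict_iff' (hs i)).1 (hfg i))
    let N : Set V := toMeasurable μ bad
    have hN0 : μ N = 0 := by rw [measure_toMeasurable, hbad]
    have hNm : MeasurableSet N := measurableSet_toMeasurable _ _
    have hbN : bad ⊆ N := subset_toMeasurable _ _
    have hgood : ∀ x ∈ s i \ N, DifferentiableAt ℝ (f i) x ∧ f i x = g i x := by
      intro x hx
      constructor
      · by_contra hcon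
        exact hx.2 (hbN (Or.inl fun h => hcon (h hx.1)))
      · by_contra hcon
        exact hx.2 (hbN (Or.inr fun h => hcon (h hx.1)))
    have h2 : f i '' (s i ∩ f i ⁻¹' B) ⊆
        f i '' ((s i \ N) ∩ g i ⁻¹' B) ∪ f i '' (s i ∩ N) := by
      rintro _ ⟨x, ⟨hx, hxB⟩, rfl⟩
      by_cases hxN : x ∈ N
      · exact Or.inr ⟨x, ⟨hx, hxN⟩, rfl⟩
      · refine Or.inl ⟨x, ⟨⟨hx, hxN⟩, ?_⟩, rfl⟩
        have := (hgood x ⟨hx, hxN⟩).2
        show g i x ∈ B
        rw [← this]
        exact hxB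
    have h3 : μ (f i '' (s i ∩ N)) = 0 :=
      hnull i _ inter_subset_left (measure_mono_null inter_subset_right hN0)
    have hmeas : MeasurableSet ((s i \ N) ∩ g i ⁻¹' B) := ((hs i).diff hNm).inter (hg i hB)
    calc μ (f i '' (s i ∩ f i ⁻¹' B))
        ≤ μ (f i '' ((s i \ N) ∩ g i ⁻¹' B) ∪ f i '' (s i ∩ N)) := measure_mono h2
      _ ≤ μ (f i '' ((s i \ N) ∩ g i ⁻¹' B)) + μ (f i '' (s i ∩ N)) := measure_union_le _ _
      _ = μ (f i '' ((s i \ N) ∩ g i ⁻¹' B)) := by rw [h3, add_zero]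
      _ ≤ ∫⁻ x in (s i \ N) ∩ g i ⁻¹' B, J i x ∂μ :=
          addHaar_image_le_lintegral_abs_det_fderiv μ hmeas
            (fun x hx => (hgood x hx.1).1.hasFDerivAt.hasFDerivWithinAt)
      _ ≤ ∫⁻ x in s i ∩ g i ⁻¹' B, J i x ∂μ :=
          lintegral_mono_set (inter_subset_inter_left _ sdiff_subset)
  calc ∫⁻ y in Ω, w y ∂μ ≤ ∫⁻ y, w y ∂(Measure.sum m) := lintegral_mono' key le_rfl
    _ = ∑' i, ∫⁻ y, w y ∂(m i) := lintegral_sum_measure _ _
    _ = ∑' i, ∫⁻ x in s i, ENNReal.ofReal |(fderiv ℝ (f i) x).det| * w (f i x) ∂μ := by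
        congr 1
        funext i
        simp only [m]
        rw [lintegral_map hw (hg i)]
        refine (lintegral_withDensity_eq_lintegral_mul _ (hJ i) (hw.comp (hg i))).trans ?_
        refine lintegral_congr_ae ?_
        filter_upwards [hfg i] with x hx
        simp only [Pi.mul_apply, Function.comp_apply, hx, J]

end Pool.Agent.W521.FV.AR
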